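import Pool.Agent.Q222.SC.Gram
import Pool.Agent.W382.FG.P1

/-!
# State-controlled finite automata never characterize the context-sensitive languages (MP_020f70)

For every family `ℒ` of languages, `SCFA(ℒ) ≠ CS`.
-/

set_option autoImplicit false

namespace Pool.Agent.Results.MP_020f70_lc.NoFamily

open Relation

/-! ### Controlled finite automata -/

/-- A finite automaton. Symbols and states are natural numbers; a rule `(p, a, q)` with
`a = some c` reads the letter `c`, and with `a = none` reads nothing. -/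
structure FA where
  Q : Finset ℕ
  start : ℕ
  final : Finset ℕ
  rules : Finset (ℕ × Option ℕ × ℕ)
  start_mem : start ∈ Q
  final_sub : final ⊆ Q
  rules_mem : ∀ ρ ∈ rules, ρ.1 ∈ Q ∧ ρ.2.2 ∈ Q

/-- A move: the rule `pa → q` changes state `p` to `q`, reads `a`, and appends the state `p` that
is left to the record word. -/
def FA.Move (M : FA) (c c' : ℕ × List ℕ × List ℕ) : Prop :=
  ∃ a, (c.1, a, c'.1) ∈ M.rules ∧ c.2.1 = a.toList ++ c'.2.1 ∧ c'.2.2 = c.2.2 ++ [c.1]

/-- The language of `M` controlled by `C`. -/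
def FA.lang (M : FA) (C : Set (List ℕ)) : Set (List ℕ) :=
  {w | ∃ f ∈ M.final, ∃ α ∈ C, ReflTransGen M.Move (M.start, w, []) (f, [], α)}

/-- The languages of finite automata with state control languages from `ℒ`. -/
def SCFA (ℒ : Set (Set (List ℕ))) : Set (Set (List ℕ)) :=
  {L | ∃ (M : FA) (C : Set (List ℕ)), C ∈ ℒ ∧ (∀ α ∈ C, ∀ p ∈ α, p ∈ M.Q) ∧ L = M.lang C}

/-! ### Context-sensitive languages -/

/-- A rewriting grammar: terminals and nonterminals are natural numbers, with finitely many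
rules. -/
structure Gram where
  start : ℕ
  rules : List (List (Symbol ℕ ℕ) × List (Symbol ℕ ℕ))

/-- Derivation step. -/
def Gram.Step (G : Gram) (x y : List (Symbol ℕ ℕ)) : Prop :=
  ∃ u v l r, (l, r) ∈ G.rules ∧ x = u ++ l ++ v ∧ y = u ++ r ++ v

/-- The generated language. -/
def Gram.lang (G : Gram) : Set (List ℕ) :=
  {w | ReflTransGen G.Step [Symbol.nonterminal G.start] (w.map Symbol.terminal)}

/-- Monotone (type 1) grammars: in each rule the left side contains a nonterminal and is at most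
as long as the right side. -/
def Gram.Mono (G : Gram) : Prop :=
  ∀ ρ ∈ G.rules, ρ.1.length ≤ ρ.2.length ∧ ∃ A, Symbol.nonterminal A ∈ ρ.1

/-- The context-sensitive languages: those which coincide, up to the empty word, with the
language of a monotone grammar. -/
def CS : Set (Set (List ℕ)) := {L | ∃ G : Gram, G.Mono ∧ ∀ w ≠ [], (w ∈ L ↔ w ∈ G.lang)}

/-! ### Erasing a letter -/

/-- relabelling the input letter `2` by the empty word -/
def rel (a : Option ℕ) : Option ℕ := if a = some 2 then none else a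

/-- erasing the letter `2` -/
def ers (w : List ℕ) : List ℕ := w.filter (fun c => decide (c ≠ 2))

theorem ers_rel (a : Option ℕ) : (rel a).toList = ers a.toList := by
  cases a with
  | none => simp [rel, ers]
  | some c =>
    by_cases h : c = 2
    · subst h; simp [rel, ers]
    · simp [rel, ers, h]

theorem ers_append (u v : List ℕ) : ers (u ++ v) = ers u ++ ers v := by
  simp [ers, List.filter_append]

/-- the automaton with the letter `2` erased -/
def FA.rel (M : FA) : FA where
  Q := M.Q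
  start := M.start
  final := M.final
  rules := M.rules.image fun ρ => (ρ.1, NoFamily.rel ρ.2.1, ρ.2.2)
  start_mem := M.start_mem
  final_sub := M.final_sub
  rules_mem := by
    intro ρ hρ
    obtain ⟨σ, hσ, rfl⟩ := Finset.mem_image.1 hρ
    exact M.rules_mem σ hσ

theorem rel_fwd {M : FA} {c c' : ℕ × List ℕ × List ℕ} (h : ReflTransGen M.Move c c') :
    ReflTransGen M.rel.Move (c.1, ers c.2.1, c.2.2) (c'.1, ers c'.2.1, c'.2.2) := by
  induction h with
  | refl => exact .refl
  | tail _ h ih =>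
    obtain ⟨a, h1, h2, h3⟩ := h
    refine ih.tail ⟨rel a, ?_, ?_, h3⟩
    · exact Finset.mem_image.2 ⟨_, h1, rfl⟩
    · simp only
      rw [h2, ers_append, ers_rel]

theorem rel_bwd {M : FA} {c c' : ℕ × List ℕ × List ℕ} (h : ReflTransGen M.rel.Move c c') :
    ∀ v, ers v = c'.2.1 → ∃ w, ers w = c.2.1 ∧
      ReflTransGen M.Move (c.1, w, c.2.2) (c'.1, v, c'.2.2) := by
  induction h using ReflTransGen.head_induction_on with
  | refl => exact fun v hv => ⟨v, hv, .refl⟩
  | @head c d h _ ih =>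
    intro v hv
    obtain ⟨w, hw, h4⟩ := ih v hv
    obtain ⟨a, h1, h2, h3⟩ := h
    obtain ⟨⟨p, b, q⟩, h5, h6⟩ := Finset.mem_image.1 h1
    simp only [Prod.mk.injEq] at h6
    obtain ⟨rfl, rfl, rfl⟩ := h6
    refine ⟨b.toList ++ w, ?_, ReflTransGen.head (b := (d.1, w, d.2.2)) ⟨b, h5, rfl, h3⟩ h4⟩
    rw [ers_append, hw, h2, ers_rel]

theorem rel_lang (M : FA) (C : Set (List ℕ)) :
    M.rel.lang C = {v | ∃ w ∈ M.lang C, v = ers w} := by
  ext v
  constructor
  · rintro ⟨f, hf, α, hα, h⟩
    obtain ⟨w, h1, h2⟩ := rel_bwd h [] rfl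
    exact ⟨w, ⟨f, hf, α, hα, h2⟩, h1.symm⟩
  · rintro ⟨w, ⟨f, hf, α, hα, h⟩, rfl⟩
    exact ⟨f, hf, α, hα, rel_fwd h⟩

theorem scfa_ers {ℒ : Set (Set (List ℕ))} {L : Set (List ℕ)} (h : L ∈ SCFA ℒ) :
    {v | ∃ w ∈ L, v = ers w} ∈ SCFA ℒ := by
  obtain ⟨M, C, hC, hQ, rfl⟩ := h
  exact ⟨M.rel, C, hC, hQ, (rel_lang M C).symm⟩

/-! ### Coding of symbols -/

open Q222.SC (Y)

/-- mapping the rules -/
def mp {α β : Type} (f : α → β) (P : List (List α × List α)) : List (List β × List β) :=
  P.map fun ρ => (ρ.1.map f, ρ.2.map f)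

theorem mp_step {α β : Type} (f : α → β) {P : List (List α × List α)} {x y : List α}
    (h : Q222.SC.Step P x y) : Q222.SC.Step (mp f P) (x.map f) (y.map f) := by
  obtain ⟨u, v, l, r, hP, rfl, rfl⟩ := h
  exact ⟨u.map f, v.map f, l.map f, r.map f, List.mem_map.2 ⟨_, hP, rfl⟩, by simp, by simp⟩

theorem mp_step' {α β : Type} {f : α → β} (hf : Function.Injective f)
    {P : List (List α × List α)} {x : List α} {z : List β}
    (h : Q222.SC.Step (mp f P) (x.map f) z) : ∃ y, z = y.map f ∧ Q222.SC.Step P x y := by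
  obtain ⟨u, v, l, r, hP, h1, rfl⟩ := h
  obtain ⟨⟨l', r'⟩, hP', h2⟩ := List.mem_map.1 hP
  simp only [Prod.mk.injEq] at h2
  obtain ⟨rfl, rfl⟩ := h2
  obtain ⟨x1, v', rfl, h3, rfl⟩ := List.map_eq_append_iff.1 h1
  obtain ⟨u', l'', rfl, rfl, h4⟩ := List.map_eq_append_iff.1 h3
  obtain rfl := hf.list_map h4
  exact ⟨u' ++ r' ++ v', by simp, u', v', l'', r', hP', rfl, rfl⟩

theorem mp_der {α β : Type} {f : α → β} (hf : Function.Injective f)
    {P : List (List α × List α)} {x y : List α} :
    ReflTransGen (Q222.SC.Step (mp f P)) (x.map f) (y.map f) ↔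
      ReflTransGen (Q222.SC.Step P) x y := by
  constructor
  · intro h
    have : ∀ z, ReflTransGen (Q222.SC.Step (mp f P)) (x.map f) z →
        ∃ y, z = y.map f ∧ ReflTransGen (Q222.SC.Step P) x y := by
      intro z h
      induction h with
      | refl => exact ⟨x, rfl, .refl⟩
      | tail _ h ih =>
        obtain ⟨y, rfl, h1⟩ := ih
        obtain ⟨y', rfl, h2⟩ := mp_step' hf h
        exact ⟨y', rfl, h1.tail h2⟩
    obtain ⟨y', h1, h2⟩ := this _ h
    rwa [hf.list_map h1]
  · intro h
    induction h with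
    | refl => exact .refl
    | tail _ h ih => exact ih.tail (mp_step f h)

/-! ### Context-sensitive languages are decidable -/

/-- numbers for symbols -/
def en : Symbol ℕ ℕ → ℕ
  | .terminal n => 2 * n
  | .nonterminal n => 2 * n + 1

theorem en_inj : Function.Injective en := by
  intro x y h
  cases x <;> cases y <;> simp only [en] at h <;> first | omega | (congr 1; omega)

theorem cs_decidable {L : Set (List ℕ)} (hL : L ∈ CS) :
    ComputablePred fun x : ℕ => (1 :: List.replicate x 0 : List ℕ) ∈ L := by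
  obtain ⟨G, hG, h⟩ := hL
  obtain ⟨D, hD, hD2⟩ := Pool.Agent.W382.FG.P1.main
  let cg : Pool.Agent.W937.FG.CG :=
    (en (.nonterminal G.start), (mp en G.rules).map fun ρ => (ρ.1, ρ.2, []))
  have key : ∀ x : ℕ, (1 :: List.replicate x 0 : List ℕ) ∈ L ↔
      D cg (2 :: List.replicate x 0) = true := by
    intro x
    rw [h _ (by simp), hD2 cg _ ?_]
    · have e : (2 :: List.replicate x 0 : List ℕ) =
          ((1 :: List.replicate x 0 : List ℕ).map Symbol.terminal).map en := by
        simp [en]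
      rw [e]
      have e2 : Pool.Agent.W937.FG.CStep cg = Q222.SC.Step (mp en G.rules) := by
        funext α β
        apply propext
        constructor
        · rintro ⟨u, v, l, r, F, h1, h2, h3, -⟩
          obtain ⟨⟨l', r'⟩, h4, h5⟩ := List.mem_map.1 h1
          simp only [Prod.mk.injEq] at h5
          obtain ⟨rfl, rfl, rfl⟩ := h5
          exact ⟨u, v, l', r', h4, h2, h3⟩
        · rintro ⟨u, v, l, r, h1, h2, h3⟩
          exact ⟨u, v, l, r, [], List.mem_map.2 ⟨_, h1, rfl⟩, h2, h3, by simp⟩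
      rw [e2]
      have e3 : ([cg.1] : List ℕ) = ([Symbol.nonterminal G.start] : List (Symbol ℕ ℕ)).map en := rfl
      rw [e3, mp_der en_inj]
      rfl
    · intro ρ hρ
      obtain ⟨σ, hσ, rfl⟩ := List.mem_map.1 hρ
      obtain ⟨τ, hτ, rfl⟩ := List.mem_map.1 hσ
      simpa using (hG τ hτ).1
  have hc : Computable fun x : ℕ => D cg (2 :: List.replicate x 0) := by
    refine (hD.to_comp).comp (Computable.const cg) ?_
    refine (Primrec.list_cons.comp (Primrec.const 2) ?_).to_comp
    have : (fun x : ℕ => List.replicate x 0) = fun x : ℕ => (List.range x).map fun _ => 0 := by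
      funext x
      simp
    rw [this]
    exact Primrec.list_map Primrec.list_range (Primrec.const 0).to₂
  refine ComputablePred.computable_iff.2 ⟨_, hc, ?_⟩
  funext x
  exact propext (key x)

/-! ### The language -/

/-- numbers for the symbols `Y` -/
def cd : Y → Symbol ℕ ℕ
  | .a => .terminal 0
  | .b => .terminal 1
  | .d => .terminal 2
  | .S => .nonterminal 0
  | .L => .nonterminal 1
  | .R => .nonterminal 2
  | .A => .nonterminal 3
  | .F => .nonterminal 4
  | .Q o => .nonterminal (5 + 3 * Encodable.encode o)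
  | .K τ => .nonterminal (6 + 3 * Encodable.encode τ)
  | .B p => .nonterminal (7 + 3 * p)

theorem cd_inj : Function.Injective cd := by
  intro x y h
  cases x <;> cases y <;>
    simp only [cd, Symbol.terminal.injEq, Symbol.nonterminal.injEq, reduceCtorEq] at h <;>
    first
    | rfl
    | omega
    | (congr 1; apply Encodable.encode_injective; omega)
    | (congr 1; omega)

/-- the grammar -/
def gr (T : List Pool.Agent.H109R3.CF.Tr) (p0 : ℕ) : Gram := ⟨0, mp cd (Q222.SC.P T p0)⟩

theorem gr_mono (T : List Pool.Agent.H109R3.CF.Tr) (p0 : ℕ) : (gr T p0).Mono := by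
  intro ρ hρ
  obtain ⟨σ, hσ, rfl⟩ := List.mem_map.1 hρ
  refine ⟨by simpa using Q222.SC.P_len hσ, ?_⟩
  obtain ⟨y, hy, h⟩ := Q222.SC.P_nt hσ
  cases y <;> simp [Q222.SC.nt] at h <;> exact ⟨_, List.mem_map.2 ⟨_, hy, rfl⟩⟩

theorem cd_term {y : Y} {c : ℕ} (h : cd y = .terminal c) : Q222.SC.nt y = false := by
  cases y <;> simp [cd] at h <;> rfl

theorem exists_cd {T : List Pool.Agent.H109R3.CF.Tr} {p0 : ℕ} {w : List ℕ}
    (h : w ∈ (gr T p0).lang) : ∃ x : List Y, w.map Symbol.terminal = x.map cd ∧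
      ReflTransGen (Q222.SC.Step (Q222.SC.P T p0)) [.S] x := by
  have h1 : ReflTransGen (Q222.SC.Step (mp cd (Q222.SC.P T p0))) (([Y.S] : List Y).map cd)
      (w.map Symbol.terminal) := h
  generalize w.map Symbol.terminal = z at h1
  induction h1 with
  | refl => exact ⟨_, rfl, .refl⟩
  | tail _ h ih =>
    obtain ⟨y, rfl, h1⟩ := ih
    obtain ⟨y', rfl, h2⟩ := mp_step' cd_inj h
    exact ⟨y', rfl, h1.tail h2⟩

/-- letters of terminal symbols -/
def lt : Y → ℕ
  | .a => 0
  | .b => 1
  | _ => 2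

theorem cd_lt {y : Y} (h : Q222.SC.nt y = false) : cd y = .terminal (lt y) := by
  cases y <;> simp [Q222.SC.nt] at h <;> rfl

theorem ers_lt {x : List Y} (h : ∀ y ∈ x, Q222.SC.nt y = false) :
    ers (x.map lt) = (Q222.SC.er x).map lt := by
  induction x with
  | nil => rfl
  | cons c x ih =>
    have ih := ih fun y hy => h y (by simp [hy])
    simp only [ers, Q222.SC.er, ne_eq, decide_not] at ih
    have hc := h c (by simp)
    cases c <;> simp [Q222.SC.nt] at hc <;>
      simp only [ers, Q222.SC.er, List.map_cons, lt, List.filter_cons] <;> simp [ih, lt]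

theorem main_iff {T : List Pool.Agent.H109R3.CF.Tr} {p0 : ℕ} {L : Set (List ℕ)}
    (hL : ∀ w ≠ [], (w ∈ L ↔ w ∈ (gr T p0).lang)) (x : ℕ) :
    (1 :: List.replicate x 0 : List ℕ) ∈ {v | ∃ w ∈ L, v = ers w} ↔
      Pool.Agent.H109R3.CF.HaltsT T (some p0) x := by
  constructor
  · rintro ⟨w, hw, h⟩
    have hw0 : w ≠ [] := by rintro rfl; simp [ers] at h
    obtain ⟨z, h1, h2⟩ := exists_cd ((hL w hw0).1 hw)
    have hz : ∀ y ∈ z, Q222.SC.nt y = false := by
      intro y hy
      have h3 : cd y ∈ w.map Symbol.terminal := by rw [h1]; exact List.mem_map.2 ⟨_, hy, rfl⟩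
      obtain ⟨c, -, hc⟩ := List.mem_map.1 h3
      exact cd_term hc.symm
    have hwz : w = z.map lt := by
      have h3 : w.map Symbol.terminal = (z.map lt).map (Symbol.terminal (N := ℕ)) := by
        rw [h1, List.map_map]
        refine List.map_congr_left fun y hy => ?_
        simp [cd_lt (hz y hy)]
      exact (Function.Injective.list_map (f := (Symbol.terminal : ℕ → Symbol ℕ ℕ))
        (fun a b h => by simpa using h)) h3
    obtain ⟨i, hi, he⟩ := Q222.SC.sound_term h2 hz
    rw [hwz, ers_lt hz, he] at h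
    have : x = i := by
      have := congrArg List.length h
      simpa [Q222.SC.rep] using this
    rwa [this]
  · intro h
    obtain ⟨y, h1, h2, h3⟩ := Q222.SC.comp_term (p0 := p0) h
    have h4 : ers (y.map lt) = 1 :: List.replicate x 0 := by
      rw [ers_lt h2, h3]
      simp [Q222.SC.rep, lt]
    refine ⟨y.map lt, ?_, h4.symm⟩
    rw [hL _ (by intro h5; rw [h5] at h4; simp [ers] at h4)]
    have h5 : (y.map lt).map (Symbol.terminal (N := ℕ)) = y.map cd := by
      rw [List.map_map]
      refine List.map_congr_left fun c hc => ?_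
      simp [cd_lt (h2 c hc)]
    have h6 : ReflTransGen (Q222.SC.Step (mp cd (Q222.SC.P T p0))) (([Y.S] : List Y).map cd)
      (y.map cd) := (mp_der cd_inj).2 h1
    rw [← h5] at h6
    exact h6

/-- For every family `ℒ` of languages, `SCFA(ℒ) ≠ CS`. More precisely there is one
context-sensitive language `L₀` such that, whenever `SCFA(ℒ) ⊆ CS`, the family `SCFA(ℒ)` contains
no language which agrees with `L₀` on the nonempty words. -/
theorem result : (∀ ℒ : Set (Set (List ℕ)), SCFA ℒ ≠ CS) ∧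
    ∃ L₀ ∈ CS, ∀ ℒ : Set (Set (List ℕ)), SCFA ℒ ⊆ CS →
      ¬ ∃ L ∈ SCFA ℒ, ∀ w ≠ [], (w ∈ L ↔ w ∈ L₀) := by
  obtain ⟨T, p0, N, hN, hT⟩ := Pool.Agent.H109R3.CF.exists_tr
  have key : ∀ ℒ : Set (Set (List ℕ)), SCFA ℒ ⊆ CS →
      ¬ ∃ L ∈ SCFA ℒ, ∀ w ≠ [], (w ∈ L ↔ w ∈ (gr T p0).lang) := by
    rintro ℒ hℒ ⟨L, hL, h⟩
    apply hT
    have h1 := cs_decidable (hℒ (scfa_ers hL))
    simp_rw [main_iff h] at h1
    obtain ⟨f, hf, h2⟩ := ComputablePred.computable_iff.1 h1
    refine ComputablePred.computable_iff.2 ⟨fun n => f (N n), hf.comp hN, ?_⟩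
    funext n
    exact congrFun h2 (N n)
  have hcs : (gr T p0).lang ∈ CS := ⟨gr T p0, gr_mono T p0, fun w _ => Iff.rfl⟩
  refine ⟨?_, (gr T p0).lang, hcs, key⟩
  intro ℒ hℒ
  exact key ℒ hℒ.subset ⟨_, hℒ ▸ hcs, fun w _ => Iff.rfl⟩

end Pool.Agent.Results.MP_020f70_lc.NoFamily
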